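import Pool.Agent.W620.SC.Norm

/-!
# Quadratic forms and sections of Galois groups: the abstract form

`k` a field of characteristic zero, `A` an algebraic closure of `k`, `M` a field on which `Gal(A/k)`
acts, with an equivariant embedding `A → M`.
-/

set_option autoImplicit false

namespace Pool.Agent.K3h82.QF

open Pool.Agent.W620.SC

variable {k A M : Type*} [Field k] [Field A] [Field M] [Algebra k A]

/-- smooth elements -/
def Sm (s : (A ≃ₐ[k] A) →* RingAut M) (w : M) : Prop :=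
  ∃ E : IntermediateField k A, FiniteDimensional k E ∧ ∀ σ ∈ E.fixingSubgroup, s σ w = w

/-- `g` is the product of the constant `c` and of the square of an invariant element -/
def Rep (s : (A ≃ₐ[k] A) →* RingAut M) (ι : A →+* M) (g : M) (c : k) : Prop :=
  c ≠ 0 ∧ ∃ z : M, z ≠ 0 ∧ (∀ σ, s σ z = z) ∧ g = ι (algebraMap k A c) * z ^ 2

variable {s : (A ≃ₐ[k] A) →* RingAut M} {ι : A →+* M}

lemma Rep.ne_zero {g : M} {c : k} (h : Rep s ι g c) : g ≠ 0 := by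
  obtain ⟨hc, z, hz, -, rfl⟩ := h
  exact mul_ne_zero ((map_ne_zero _).2 ((map_ne_zero _).2 hc)) (pow_ne_zero _ hz)

lemma const_fixed (hι : ∀ σ a, s σ (ι a) = ι (σ a)) (c : k) (σ : A ≃ₐ[k] A) :
    s σ (ι (algebraMap k A c)) = ι (algebraMap k A c) := by
  rw [hι, AlgEquiv.commutes]

lemma Rep.fixed (hι : ∀ σ a, s σ (ι a) = ι (σ a)) {g : M} {c : k} (h : Rep s ι g c)
    (σ : A ≃ₐ[k] A) : s σ g = g := by
  obtain ⟨hc, z, hz, hf, rfl⟩ := h
  rw [map_mul, map_pow, const_fixed hι, hf]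

lemma rep_const {c : k} (hc : c ≠ 0) : Rep s ι (ι (algebraMap k A c)) c :=
  ⟨hc, 1, one_ne_zero, fun σ => map_one _, by ring⟩

lemma Rep.mul {g g' : M} {c c' : k} (h : Rep s ι g c) (h' : Rep s ι g' c') :
    Rep s ι (g * g') (c * c') := by
  obtain ⟨hc, z, hz, hf, rfl⟩ := h
  obtain ⟨hc', z', hz', hf', rfl⟩ := h'
  exact ⟨mul_ne_zero hc hc', z * z', mul_ne_zero hz hz', fun σ => by rw [map_mul, hf, hf'],
    by rw [map_mul, map_mul]; ring⟩

lemma Rep.neg {g : M} {c : k} (h : Rep s ι g c) : Rep s ι (-g) (-c) := by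
  obtain ⟨hc, z, hz, hf, rfl⟩ := h
  exact ⟨neg_ne_zero.2 hc, z, hz, hf, by rw [map_neg, map_neg]; ring⟩

lemma Rep.sq_mul {g : M} {c : k} (h : Rep s ι g c) {x : M} (hx : x ≠ 0)
    (hxf : ∀ σ, s σ x = x) : Rep s ι (g * x ^ 2) c := by
  obtain ⟨hc, z, hz, hf, rfl⟩ := h
  exact ⟨hc, z * x, mul_ne_zero hz hx, fun σ => by rw [map_mul, hf, hxf], by ring⟩

lemma Rep.const_sq {g : M} {c : k} (h : Rep s ι g c) {r : k} (hr : r ≠ 0)
    (hι : ∀ σ a, s σ (ι a) = ι (σ a)) : Rep s ι g (c * r ^ 2) := by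
  obtain ⟨hc, z, hz, hf, rfl⟩ := h
  have hr' : ι (algebraMap k A r) ≠ 0 := (map_ne_zero _).2 ((map_ne_zero _).2 hr)
  refine ⟨mul_ne_zero hc (pow_ne_zero _ hr), z / ι (algebraMap k A r), div_ne_zero hz hr',
    fun σ => by rw [map_div₀, hf, const_fixed hι], ?_⟩
  rw [map_mul, map_mul, map_pow, map_pow]
  field_simp

section closed

variable [CharZero k] [IsAlgClosed A] [Algebra.IsAlgebraic k A]

include s in
/-- invariant constants are in `k` -/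
lemma const_of_fixed (hι : ∀ σ a, s σ (ι a) = ι (σ a)) {a : A}
    (ha : ∀ σ, s σ (ι a) = ι a) : ∃ r : k, algebraMap k A r = a := by
  have : IsAlgClosure k A := ⟨inferInstance, inferInstance⟩
  have : Normal k A := IsAlgClosure.normal k A
  have : IsGalois k A := ⟨⟩
  have h1 : a ∈ (⊥ : IntermediateField k A) := by
    apply mem_of_fixed
    intro σ _
    apply ι.injective
    rw [← hι, ha]
  exact IntermediateField.mem_bot.1 h1

lemma sqrt_const (hι : ∀ σ a, s σ (ι a) = ι (σ a)) {x : M} (hx : ∀ σ, s σ x = x) {c : k}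
    (h : x ^ 2 = ι (algebraMap k A c)) : ∃ r : k, x = ι (algebraMap k A r) ∧ r ^ 2 = c := by
  obtain ⟨a, rfl⟩ := root_mem ι two_pos h
  obtain ⟨r, rfl⟩ := const_of_fixed hι hx
  refine ⟨r, rfl, ?_⟩
  rw [← map_pow, ← map_pow] at h
  exact (algebraMap k A).injective (ι.injective h)

lemma Rep.unique (hι : ∀ σ a, s σ (ι a) = ι (σ a)) {g : M} {c c' : k} (h : Rep s ι g c)
    (h' : Rep s ι g c') : ∃ r : k, r ≠ 0 ∧ c' = c * r ^ 2 := by
  obtain ⟨hc, z, hz, hf, rfl⟩ := h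
  obtain ⟨hc', z', hz', hf', he⟩ := h'
  have h0 : ι (algebraMap k A c) ≠ 0 := (map_ne_zero _).2 ((map_ne_zero _).2 hc)
  have h1 : (z / z') ^ 2 = ι (algebraMap k A (c' / c)) := by
    rw [map_div₀, map_div₀, div_pow]
    field_simp
    linear_combination he
  obtain ⟨r, hr, hr2⟩ := sqrt_const hι (fun σ => by rw [map_div₀, hf, hf']) h1
  refine ⟨r, ?_, ?_⟩
  · rintro rfl
    rw [map_zero, map_zero] at hr
    exact div_ne_zero hz hz' hr
  · rw [hr2]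
    field_simp

/-- the existence of the representatives -/
lemma rep_exists (hι : ∀ σ a, s σ (ι a) = ι (σ a)) {g : M} (hg : g ≠ 0)
    (hgf : ∀ σ, s σ g = g) {w : M} (hw : w ^ 2 = g) (hs : Sm s w) : ∃ c : k, Rep s ι g c := by
  obtain ⟨E, hE, hEf⟩ := hs
  have : IsAlgClosure k A := ⟨inferInstance, inferInstance⟩
  have : Normal k A := IsAlgClosure.normal k A
  have hw0 : w ≠ 0 := by
    rintro rfl
    rw [zero_pow two_ne_zero] at hw
    exact hg hw.symm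
  obtain ⟨β, hβ0, hβ⟩ := exists_fixed_multiple s ι hι ⊤ w hw0 (by
    intro σ _
    have h1 : (s σ w) ^ 2 = w ^ 2 := by rw [← map_pow, hw, hgf]
    rcases sq_eq_sq_iff_eq_or_eq_neg.1 h1 with h | h
    · exact ⟨1, by rw [h, map_one, one_mul]⟩
    · exact ⟨-1, by rw [h, map_neg, map_one, neg_one_mul]⟩) E hEf
  have hβ' : ∀ σ, s σ (ι β * w) = ι β * w := fun σ => hβ σ (Subgroup.mem_top _)
  have hz0 : ι β * w ≠ 0 := mul_ne_zero ((map_ne_zero _).2 hβ0) hw0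
  obtain ⟨r, hr⟩ : ∃ r : k, algebraMap k A r = β ^ 2 := by
    apply const_of_fixed hι
    intro σ
    have h1 : ι (β ^ 2) = (ι β * w) ^ 2 / g := by
      rw [mul_pow, hw, map_pow]
      field_simp
    rw [h1, map_div₀, map_pow, hβ', hgf]
  have hr0 : r ≠ 0 := by
    rintro rfl
    rw [map_zero] at hr
    exact pow_ne_zero 2 hβ0 hr.symm
  refine ⟨r⁻¹, inv_ne_zero hr0, ι β * w, hz0, hβ', ?_⟩
  rw [map_inv₀, hr, map_inv₀, mul_pow, hw, map_pow]
  have h2 : ι β ≠ 0 := (map_ne_zero _).2 hβ0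
  field_simp

/-- sums of two elements -/
theorem rep_add (hι : ∀ σ a, s σ (ι a) = ι (σ a)) {g₁ g₂ : M} {c₁ c₂ c₃ : k}
    (h₁ : Rep s ι g₁ c₁) (h₂ : Rep s ι g₂ c₂) (h₃ : Rep s ι (g₁ + g₂) c₃)
    (hw : ∀ v : M, v ^ 2 = -g₂ / g₁ → ∃ w, w ^ 2 = 1 + v ∧ Sm s w) :
    ∃ x y : k, c₃ = c₁ * x ^ 2 + c₂ * y ^ 2 := by
  have : IsAlgClosure k A := ⟨inferInstance, inferInstance⟩
  have : Normal k A := IsAlgClosure.normal k A
  obtain ⟨hc1, z₁, hz1, hf1, hg1⟩ := h₁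
  obtain ⟨hc2, z₂, hz2, hf2, hg2⟩ := h₂
  have h30 := h₃.ne_zero
  obtain ⟨hc3, z₃, hz3, hf3, hg3⟩ := h₃
  by_cases hsq : ∃ t : k, t ^ 2 = -c₂ / c₁
  · obtain ⟨t, ht⟩ := hsq
    have ht0 : t ≠ 0 := by
      rintro rfl
      rw [zero_pow two_ne_zero] at ht
      exact div_ne_zero (neg_ne_zero.2 hc2) hc1 ht.symm
    have h2 : c₂ = -(c₁ * t ^ 2) := by
      rw [ht]
      field_simp
    refine ⟨(c₃ / c₁ + 1) / 2, (c₃ / c₁ - 1) / (2 * t), ?_⟩
    rw [h2]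
    field_simp
    ring
  obtain ⟨δ, hδ⟩ := IsAlgClosed.exists_pow_nat_eq (algebraMap k A (-c₂ / c₁)) (n := 2) two_pos
  have hδ0 : δ ≠ 0 := by
    rintro rfl
    rw [zero_pow two_ne_zero] at hδ
    exact (map_ne_zero _).2 (div_ne_zero (neg_ne_zero.2 hc2) hc1) hδ.symm
  have hδσ : ∀ σ : A ≃ₐ[k] A, σ δ = δ ∨ σ δ = -δ := by
    intro σ
    apply sq_eq_sq_iff_eq_or_eq_neg.1
    rw [← map_pow, hδ, AlgEquiv.commutes]
  obtain ⟨τ, hτ⟩ : ∃ τ : A ≃ₐ[k] A, τ δ = -δ := by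
    by_contra hcon
    push Not at hcon
    apply hsq
    obtain ⟨r, hr⟩ := const_of_fixed (s := s) hι (a := δ) (fun σ => by
      rw [hι, (hδσ σ).resolve_right (hcon σ)])
    refine ⟨r, ?_⟩
    apply (algebraMap k A).injective
    rw [map_pow, hr, hδ]
  have hδne : δ ≠ -δ := by
    intro h
    apply hδ0
    have : CharZero A := charZero_of_injective_algebraMap (algebraMap k A).injective
    have h2 : (2 : A) * δ = 0 := by linear_combination h
    exact (mul_eq_zero.1 h2).resolve_left two_ne_zero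
  -- the stabiliser of `δ`
  have hτinv : τ⁻¹ δ = -δ := by
    apply τ.injective
    rw [map_neg, hτ, neg_neg]
    exact AlgEquiv.apply_symm_apply τ δ
  have hconj : ∀ σ : A ≃ₐ[k] A, σ δ = δ → (τ⁻¹ * σ * τ) δ = δ := by
    intro σ hσ
    change τ⁻¹ (σ (τ δ)) = δ
    rw [hτ, map_neg, hσ, map_neg, hτinv, neg_neg]
  have hcos : ∀ σ : A ≃ₐ[k] A, σ δ = -δ → (τ⁻¹ * σ) δ = δ := by
    intro σ hσ
    change τ⁻¹ (σ δ) = δ
    rw [hσ, map_neg, hτinv, neg_neg]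
  have hcos' : ∀ σ : A ≃ₐ[k] A, σ δ = -δ → (σ * τ) δ = δ := by
    intro σ hσ
    change σ (τ δ) = δ
    rw [hτ, map_neg, hσ, neg_neg]
  obtain ⟨v, hv⟩ : ∃ v : M, v = ι δ * (z₂ / z₁) := ⟨_, rfl⟩
  have hιc1 : ι (algebraMap k A c₁) ≠ 0 := (map_ne_zero _).2 ((map_ne_zero _).2 hc1)
  have hg10 : g₁ ≠ 0 := by
    rw [hg1]
    exact mul_ne_zero hιc1 (pow_ne_zero _ hz1)
  have hv2 : v ^ 2 = -g₂ / g₁ := by
    rw [hv, mul_pow, ← map_pow, hδ, hg1, hg2, map_div₀, map_div₀, map_neg, map_neg]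
    field_simp
  obtain ⟨w, hw2, E, hE, hEf⟩ := hw v hv2
  have h1v : (1 + v) * (1 - v) = (g₁ + g₂) / g₁ := by
    have h5 : (1 + v) * (1 - v) = 1 - v ^ 2 := by ring
    rw [h5, hv2]
    field_simp
    ring
  have hw0 : w ≠ 0 := by
    rintro rfl
    rw [zero_pow two_ne_zero] at hw2
    rw [← hw2, zero_mul] at h1v
    exact div_ne_zero h30 hg10 h1v.symm
  have hvσ : ∀ σ : A ≃ₐ[k] A, σ δ = δ → s σ v = v := by
    intro σ hσ
    rw [hv, map_mul, map_div₀, hι, hσ, hf1, hf2]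
  have hvτ : s τ v = -v := by
    rw [hv, map_mul, map_div₀, hι, hτ, hf1, hf2, map_neg]
    ring
  obtain ⟨β, hβ0, hβ⟩ := exists_fixed_multiple s ι hι (MulAction.stabilizer (A ≃ₐ[k] A) δ) w hw0 (by
    intro σ hσ
    have hσ' : σ δ = δ := hσ
    have h1 : (s σ w) ^ 2 = w ^ 2 := by
      rw [← map_pow, hw2, map_add, map_one, hvσ σ hσ']
    rcases sq_eq_sq_iff_eq_or_eq_neg.1 h1 with h | h
    · exact ⟨1, by rw [h, map_one, one_mul]⟩
    · exact ⟨-1, by rw [h, map_neg, map_one, neg_one_mul]⟩) E hEf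
  obtain ⟨u, hu⟩ : ∃ u : M, u = ι β * w := ⟨_, rfl⟩
  have hus : ∀ σ : A ≃ₐ[k] A, σ δ = δ → s σ u = u := by
    intro σ hσ
    rw [hu]
    exact hβ σ hσ
  have hmul : ∀ (σ ρ : A ≃ₐ[k] A) (x : M), s (σ * ρ) x = s σ (s ρ x) := by
    intro σ ρ x
    rw [map_mul]
    rfl
  have hu2 : u ^ 2 = ι (β ^ 2) * (1 + v) := by rw [hu, mul_pow, hw2, map_pow]
  have hU : ∀ σ : A ≃ₐ[k] A, s σ (u * s τ u) = u * s τ u := by
    intro σ
    rw [map_mul]
    rcases hδσ σ with h | h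
    · have e1 : s σ (s τ u) = s τ u := by
        rw [← hmul]
        have e2 : σ * τ = τ * (τ⁻¹ * σ * τ) := by group
        rw [e2, hmul, hus _ (hconj σ h)]
      rw [hus σ h, e1]
    · have e1 : s σ u = s τ u := by
        have e2 : σ = τ * (τ⁻¹ * σ) := by group
        rw [e2, hmul, hus _ (hcos σ h)]
      have e3 : s σ (s τ u) = u := by
        rw [← hmul, hus _ (hcos' σ h)]
      rw [e1, e3, mul_comm]
  obtain ⟨κ, hκ⟩ : ∃ κ : A, κ = β ^ 2 := ⟨_, rfl⟩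
  have h1v0 : 1 + v ≠ 0 := by
    rw [← hw2]
    exact pow_ne_zero _ hw0
  have hκσ : ∀ σ : A ≃ₐ[k] A, σ δ = δ → σ κ = κ := by
    intro σ hσ
    apply ι.injective
    rw [← hι]
    have e1 : ι κ = u ^ 2 / (1 + v) := by
      rw [hu2, hκ]
      field_simp
    rw [e1, map_div₀, map_pow, hus σ hσ, map_add, map_one, hvσ σ hσ]
  have hAmul : ∀ (σ ρ : A ≃ₐ[k] A) (x : A), (σ * ρ) x = σ (ρ x) := fun σ ρ x => rfl
  have hκτ : ∀ σ : A ≃ₐ[k] A, σ δ = -δ → σ κ = τ κ := by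
    intro σ hσ
    have e2 : σ = τ * (τ⁻¹ * σ) := by group
    rw [e2, hAmul, hκσ _ (hcos σ hσ)]
  have hτκσ : ∀ σ : A ≃ₐ[k] A, σ δ = δ → σ (τ κ) = τ κ := by
    intro σ hσ
    rw [← hAmul]
    have e2 : σ * τ = τ * (τ⁻¹ * σ * τ) := by group
    rw [e2, hAmul, hκσ _ (hconj σ hσ)]
  have hτκτ : ∀ σ : A ≃ₐ[k] A, σ δ = -δ → σ (τ κ) = κ := by
    intro σ hσ
    rw [← hAmul, hκσ _ (hcos' σ hσ)]
  have hA2 : (2 : A) ≠ 0 := by
    have : CharZero A := charZero_of_injective_algebraMap (algebraMap k A).injective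
    exact two_ne_zero
  obtain ⟨x, hx⟩ : ∃ r : k, algebraMap k A r = (κ + τ κ) / 2 := by
    apply const_of_fixed (s := s) hι
    intro σ
    rw [hι]
    congr 1
    rw [map_div₀, map_add, map_ofNat]
    rcases hδσ σ with h | h
    · rw [hκσ σ h, hτκσ σ h]
    · rw [hκτ σ h, hτκτ σ h, add_comm]
  obtain ⟨y, hy⟩ : ∃ r : k, algebraMap k A r = (κ - τ κ) / (2 * δ) := by
    apply const_of_fixed (s := s) hι
    intro σ
    rw [hι]
    congr 1
    rw [map_div₀, map_sub, map_mul, map_ofNat]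
    rcases hδσ σ with h | h
    · rw [hκσ σ h, hτκσ σ h, h]
    · rw [hκτ σ h, hτκτ σ h, h]
      field_simp
      ring
  have hN : κ * τ κ = algebraMap k A (x ^ 2 + y ^ 2 * (c₂ / c₁)) := by
    have e1 : algebraMap k A (c₂ / c₁) = -δ ^ 2 := by
      rw [hδ, ← map_neg]
      congr 1
      ring
    rw [map_add, map_mul, map_pow, map_pow, hx, hy, e1]
    field_simp
    ring
  obtain ⟨r, hr, hr2⟩ := sqrt_const (s := s) hι (x := u * s τ u * (z₁ / z₃))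
    (c := (x ^ 2 + y ^ 2 * (c₂ / c₁)) * (c₃ / c₁)) (by
      intro σ
      rw [map_mul, hU, map_div₀, hf1, hf3]) (by
      have e1 : s τ u ^ 2 = ι (τ κ) * (1 - v) := by
        rw [← map_pow, hu2, map_mul, ← hκ, hι, map_add, map_one, hvτ, sub_eq_add_neg]
      have e2 : (u * s τ u * (z₁ / z₃)) ^ 2 = ι (κ * τ κ) * ((1 + v) * (1 - v)) * (z₁ / z₃) ^ 2 := by
        rw [mul_pow, mul_pow, e1, hu2, ← hκ, map_mul]
        ring
      rw [e2, h1v, hg3, hg1, hN, map_mul (algebraMap k A), map_mul ι, map_div₀ (algebraMap k A) c₃,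
        map_div₀ ι]
      field_simp)
  have hu0 : u ≠ 0 := by
    rw [hu]
    exact mul_ne_zero ((map_ne_zero _).2 hβ0) hw0
  have hr0 : r ≠ 0 := by
    rintro rfl
    rw [map_zero, map_zero] at hr
    exact mul_ne_zero (mul_ne_zero hu0 ((map_ne_zero_iff _ (s τ).injective).2 hu0))
      (div_ne_zero hz1 hz3) hr
  have hD : c₁ * x ^ 2 + c₂ * y ^ 2 ≠ 0 := by
    intro h
    apply pow_ne_zero 2 hr0
    rw [hr2]
    have e1 : x ^ 2 + y ^ 2 * (c₂ / c₁) = (c₁ * x ^ 2 + c₂ * y ^ 2) / c₁ := by field_simp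
    rw [e1, h]
    simp
  refine ⟨r * c₁ * x / (c₁ * x ^ 2 + c₂ * y ^ 2), r * c₁ * y / (c₁ * x ^ 2 + c₂ * y ^ 2), ?_⟩
  have e2 : r ^ 2 * c₁ ^ 2 = (c₁ * x ^ 2 + c₂ * y ^ 2) * c₃ := by
    rw [hr2]
    field_simp
  field_simp
  linear_combination (-1 : k) * e2

end closed

end Pool.Agent.K3h82.QF
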