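import Pool.Agent.K3h82.QF.Abs

set_option autoImplicit false

namespace Pool.Agent.K3h82.QF

open Pool.Agent.W620.SC Finset

variable {k A M : Type*} [Field k] [Field A] [Field M] [Algebra k A]
variable {s : (A ≃ₐ[k] A) →* RingAut M} {ι : A →+* M}
variable [CharZero k] [IsAlgClosed A] [Algebra.IsAlgebraic k A]

/-- the square roots which are needed for the partial sums of `b` -/
def Roots (s : (A ≃ₐ[k] A) →* RingAut M) (b : ℕ → M) (n : ℕ) : Prop :=
  (∀ j ≤ n, ∑ i ∈ range j, b i ≠ 0 → ∃ w, w ^ 2 = ∑ i ∈ range j, b i ∧ Sm s w) ∧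
    ∀ j < n, ∑ i ∈ range j, b i ≠ 0 → b j ≠ 0 → ∑ i ∈ range (j + 1), b i ≠ 0 →
      ∀ v : M, v ^ 2 = -b j / ∑ i ∈ range j, b i → ∃ w, w ^ 2 = 1 + v ∧ Sm s w

lemma sum_ite_lt (a u : ℕ → k) (x y : k) (j : ℕ) :
    ∑ i ∈ range (j + 1), a i * (if i < j then u i * x else y) ^ 2 =
      (∑ i ∈ range j, a i * u i ^ 2) * x ^ 2 + a j * y ^ 2 := by
  rw [sum_range_succ, if_neg (lt_irrefl j), sum_mul]
  congr 1
  refine sum_congr rfl fun i hi => ?_
  rw [if_pos (mem_range.1 hi)]
  ring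

theorem chain (hι : ∀ σ a, s σ (ι a) = ι (σ a)) (a : ℕ → k) (b : ℕ → M)
    (hb : ∀ i, b i = 0 ∨ Rep s ι (b i) (a i)) (n : ℕ) (hR : Roots s b n) :
    ∀ j ≤ n, (∑ i ∈ range j, b i ≠ 0 → ∃ u : ℕ → k,
        Rep s ι (∑ i ∈ range j, b i) (∑ i ∈ range j, a i * u i ^ 2)) ∧
      ((∃ i < j, b i ≠ 0) → ∑ i ∈ range j, b i = 0 → ∃ u : ℕ → k, (∃ i < j, u i ≠ 0) ∧
        ∑ i ∈ range j, a i * u i ^ 2 = 0) := by
  intro j
  induction j with
  | zero =>
    intro _
    refine ⟨fun h => absurd (by simp) h, ?_⟩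
    rintro ⟨i, hi, -⟩
    exact absurd hi (Nat.not_lt_zero i)
  | succ j ih =>
    intro hj
    obtain ⟨ih1, ih2⟩ := ih (by omega)
    by_cases hbj : b j = 0
    · -- nothing is added
      have e0 : ∑ i ∈ range (j + 1), b i = ∑ i ∈ range j, b i := by
        rw [sum_range_succ, hbj, add_zero]
      rw [e0]
      refine ⟨fun h => ?_, fun h1 h2 => ?_⟩
      · obtain ⟨u, hu⟩ := ih1 h
        refine ⟨fun i => if i < j then u i * 1 else 0, ?_⟩
        rw [sum_ite_lt]
        convert hu using 1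
        ring
      · obtain ⟨u, ⟨i, hi, hui⟩, hu⟩ := ih2 (by
          obtain ⟨i, hi, hi0⟩ := h1
          refine ⟨i, ?_, hi0⟩
          rcases Nat.lt_succ_iff_lt_or_eq.1 hi with h | h
          · exact h
          · exact absurd (h ▸ hbj) hi0) h2
        refine ⟨fun i => if i < j then u i * 1 else 0, ⟨i, by omega, ?_⟩, ?_⟩
        · simp only
          rw [if_pos hi, mul_one]
          exact hui
        · rw [sum_ite_lt, hu]
          ring
    have hRep : Rep s ι (b j) (a j) := (hb j).resolve_left hbj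
    by_cases hc : ∑ i ∈ range j, b i = 0
    · have e0 : ∑ i ∈ range (j + 1), b i = b j := by
        rw [sum_range_succ, hc, zero_add]
      rw [e0]
      refine ⟨fun _ => ⟨fun i => if i < j then (0 : k) * 0 else 1, ?_⟩, fun _ h => absurd h hbj⟩
      have e1 := sum_ite_lt a (fun _ => (0 : k)) 0 1 j
      rw [e1]
      simpa using hRep
    obtain ⟨u, hu⟩ := ih1 hc
    have e0 : ∑ i ∈ range (j + 1), b i = ∑ i ∈ range j, b i + b j := sum_range_succ _ _
    refine ⟨fun hne => ?_, fun _ hzero => ?_⟩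
    · obtain ⟨w, hw, hws⟩ := hR.1 (j + 1) hj hne
      obtain ⟨c', hc'⟩ := rep_exists hι hne (fun σ => by
        rw [e0, map_add, hu.fixed hι, hRep.fixed hι]) hw hws
      obtain ⟨x, y, hxy⟩ := rep_add hι hu hRep (by rw [← e0]; exact hc')
        (hR.2 j (by omega) hc hbj hne)
      refine ⟨fun i => if i < j then u i * x else y, ?_⟩
      rw [sum_ite_lt, ← hxy]
      exact hc'
    · have h1 : Rep s ι (∑ i ∈ range j, b i) (-a j) := by
        have h2 : ∑ i ∈ range j, b i = -b j := by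
          rw [e0] at hzero
          exact eq_neg_of_add_eq_zero_left hzero
        rw [h2]
        exact hRep.neg
      obtain ⟨r, hr0, hr⟩ := hu.unique hι h1
      refine ⟨fun i => if i < j then u i * r else 1, ⟨j, by omega, ?_⟩, ?_⟩
      · simp
      · rw [sum_ite_lt, ← hr]
        ring

end Pool.Agent.K3h82.QF
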