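import Mathlib

set_option autoImplicit false

namespace Pool.Agent.K3h82.QF

open Finset

/-- diagonalisation of quadratic forms, valid over all algebras -/
theorem diagonalize {k : Type*} [Field k] [CharZero k] {n : ℕ} (Q : Matrix (Fin n) (Fin n) k) :
    ∃ (d : ℕ) (w : Fin d → k) (P : Matrix (Fin d) (Fin n) k) (P' : Matrix (Fin n) (Fin d) k),
      P' * P = 1 ∧ P * P' = 1 ∧
        (∑ i, ∑ j, MvPolynomial.C (Q i j) * MvPolynomial.X i * MvPolynomial.X j :
          MvPolynomial (Fin n) k) =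
        ∑ l, MvPolynomial.C (w l) * (∑ i, MvPolynomial.C (P l i) * MvPolynomial.X i) ^ 2 := by
  classical
  have : Invertible (2 : k) := invertibleOfNonzero two_ne_zero
  obtain ⟨w, ⟨e⟩⟩ := QuadraticForm.equivalent_weightedSumSquares (Matrix.toQuadraticForm' Q)
  obtain ⟨E, hE⟩ : ∃ E : (Fin n → k) ≃ₗ[k] (Fin (Module.finrank k (Fin n → k)) → k),
      ∀ x, E x = e x := ⟨e.toLinearEquiv, fun _ => rfl⟩
  obtain ⟨P, hP⟩ : ∃ P, P = LinearMap.toMatrix' (E : (Fin n → k) →ₗ[k] (Fin (Module.finrank k (Fin n → k)) → k)) :=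
    ⟨_, rfl⟩
  refine ⟨_, w, P, LinearMap.toMatrix'
    (E.symm : (Fin (Module.finrank k (Fin n → k)) → k) →ₗ[k] (Fin n → k)), ?_, ?_, ?_⟩
  · rw [hP, ← LinearMap.toMatrix'_comp]
    have h1 : (E.symm : (Fin (Module.finrank k (Fin n → k)) → k) →ₗ[k] (Fin n → k)) ∘ₗ
        (E : (Fin n → k) →ₗ[k] (Fin (Module.finrank k (Fin n → k)) → k)) = LinearMap.id := by
      ext x
      simp
    rw [h1, LinearMap.toMatrix'_id]
  · rw [hP, ← LinearMap.toMatrix'_comp]
    have h1 : (E : (Fin n → k) →ₗ[k] (Fin (Module.finrank k (Fin n → k)) → k)) ∘ₗ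
        (E.symm : (Fin (Module.finrank k (Fin n → k)) → k) →ₗ[k] (Fin n → k)) = LinearMap.id := by
      ext x
      simp
    rw [h1, LinearMap.toMatrix'_id]
  · apply MvPolynomial.funext
    intro x
    have h1 := e.map_app x
    rw [QuadraticMap.weightedSumSquares_apply] at h1
    have h2 : ∀ l, (e x) l = ∑ i, P l i * x i := by
      intro l
      have h3 : e x = P.mulVec x := by
        rw [hP, LinearMap.toMatrix'_mulVec, ← hE]
        rfl
      rw [h3]
      rfl
    simp only [map_sum, map_mul, map_pow, MvPolynomial.eval_C, MvPolynomial.eval_X]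
    have h5 : (Matrix.toQuadraticForm' Q) x = ∑ i, ∑ j, Q i j * x i * x j := by
      have h6 : (Matrix.toQuadraticForm' Q) x = Matrix.toLinearMap₂' k Q x x := rfl
      rw [h6, Matrix.toLinearMap₂'_apply]
      refine sum_congr rfl fun i _ => sum_congr rfl fun j _ => ?_
      simp only [smul_eq_mul]
      ring
    rw [← h5, ← h1]
    refine sum_congr rfl fun l _ => ?_
    rw [h2 l, smul_eq_mul, sq]

/-- the diagonalisation over an algebra -/
theorem diag_eval {k : Type*} [Field k] {n d : ℕ} {Q : Matrix (Fin n) (Fin n) k} {w : Fin d → k}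
    {P : Matrix (Fin d) (Fin n) k}
    (key : (∑ i, ∑ j, MvPolynomial.C (Q i j) * MvPolynomial.X i * MvPolynomial.X j :
      MvPolynomial (Fin n) k) =
      ∑ l, MvPolynomial.C (w l) * (∑ i, MvPolynomial.C (P l i) * MvPolynomial.X i) ^ 2)
    (R : Type*) [CommRing R] [Algebra k R] (z : Fin n → R) :
    ∑ i, ∑ j, algebraMap k R (Q i j) * z i * z j =
      ∑ l, algebraMap k R (w l) * (∑ i, algebraMap k R (P l i) * z i) ^ 2 := by
  have h7 := congrArg (MvPolynomial.aeval z) key
  simpa only [map_sum, map_mul, map_pow, MvPolynomial.algHom_C, MvPolynomial.aeval_X] using h7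

end Pool.Agent.K3h82.QF
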