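import Pool.Agent.K3h82.QF.Sec
import Pool.Agent.Helper273.Brg.P_springer

set_option autoImplicit false

namespace Pool.Agent.K3h82.QF

open Pool.Agent.W620.SC Finset

/-- the squares -/
def sqs (k : Type*) [Field k] : Subgroup kˣ := (powMonoidHom 2 : kˣ →* kˣ).range

lemma mk_eq_iff {k : Type*} [Field k] (a b : kˣ) :
    (QuotientGroup.mk a : kˣ ⧸ sqs k) = QuotientGroup.mk b ↔ ∃ r : kˣ, b = a * r ^ 2 := by
  rw [QuotientGroup.eq]
  constructor
  · rintro ⟨r, hr⟩
    refine ⟨r, ?_⟩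
    have h1 : r ^ 2 = a⁻¹ * b := hr
    rw [h1]
    group
  · rintro ⟨r, rfl⟩
    refine ⟨r, ?_⟩
    change r ^ 2 = _
    group

variable {k A F M : Type*} [Field k] [Field A] [Field F] [Field M] [Algebra k A] [Algebra k F]
  [Algebra F M] {s : (A ≃ₐ[k] A) →* RingAut M} {ι : A →+* M}
  [CharZero k] [IsAlgClosed A] [Algebra.IsAlgebraic k A]

theorem Act.exists_hom (h : Act (F := F) s ι) (hM : Closed2 F M) :
    ∃ φ : Fˣ →* kˣ ⧸ sqs k, ∀ (g : Fˣ) (c : kˣ),
      φ g = QuotientGroup.mk c ↔ Rep s ι (algebraMap F M (g : F)) (c : k) := by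
  have h1 : ∀ g : Fˣ, ∃ c : kˣ, Rep s ι (algebraMap F M (g : F)) (c : k) := by
    intro g
    obtain ⟨c, hc⟩ := h.exists_rep hM g.ne_zero
    exact ⟨Units.mk0 c hc.1, hc⟩
  choose f hf using h1
  have h2 : ∀ (g : Fˣ) (c : kˣ), (QuotientGroup.mk (f g) : kˣ ⧸ sqs k) = QuotientGroup.mk c ↔
      Rep s ι (algebraMap F M (g : F)) (c : k) := by
    intro g c
    rw [mk_eq_iff]
    constructor
    · rintro ⟨r, rfl⟩
      have h3 := (hf g).const_sq (r := (r : k)) r.ne_zero h.equi
      rwa [Units.val_mul, Units.val_pow_eq_pow_val]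
    · intro hc
      obtain ⟨r, hr0, hr⟩ := (hf g).unique h.equi hc
      exact ⟨Units.mk0 r hr0, Units.ext (by
        rw [Units.val_mul, Units.val_pow_eq_pow_val]
        exact hr)⟩
  refine ⟨MonoidHom.mk' (fun g => QuotientGroup.mk (f g)) ?_, h2⟩
  intro g g'
  rw [← QuotientGroup.mk_mul]
  rw [h2, Units.val_mul, Units.val_mul, map_mul]
  exact (hf g).mul (hf g')

/-- isotropic forms are mapped to isotropic forms -/
theorem Act.isotropic (h : Act (F := F) s ι) (hM : Closed2 F M) {n : ℕ} (b : Fin n → F)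
    (c : Fin n → k) (hb : ∀ i, Rep s ι (algebraMap F M (b i)) (c i)) (x : Fin n → F) (hx : x ≠ 0)
    (hs : ∑ i, b i * x i ^ 2 = 0) : ∃ y : Fin n → k, y ≠ 0 ∧ ∑ i, c i * y i ^ 2 = 0 := by
  obtain ⟨l, hl⟩ : ∃ l, x l ≠ 0 := by
    by_contra hcon
    push Not at hcon
    exact hx (funext hcon)
  refine fin_zero h.equi c (fun l => algebraMap F M (b l * x l ^ 2)) ?_ (h.roots' hM _) ⟨l, ?_⟩ ?_
  · intro i
    by_cases hi : x i = 0
    · left
      rw [hi]
      simp
    · right
      rw [map_mul, map_pow]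
      exact (hb i).sq_mul ((map_ne_zero _).2 hi) (fun σ => h.triv σ _)
  · rw [map_mul]
    exact mul_ne_zero (hb l).ne_zero ((map_ne_zero _).2 (pow_ne_zero _ hl))
  · rw [← map_sum, hs, map_zero]

omit [CharZero k] [IsAlgClosed A] [Algebra.IsAlgebraic k A] in
/-- the Kummer character of the representative -/
theorem Act.kummer (h : Act (F := F) s ι) {g : F} {c : k} (hg : Rep s ι (algebraMap F M g) c)
    {w : M} {γ : A} (hw : w ^ 2 = algebraMap F M g) (hγ : γ ^ 2 = algebraMap k A c)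
    (σ : A ≃ₐ[k] A) : s σ w * ι γ = w * ι (σ γ) := by
  obtain ⟨hc, z, hz, hf, hgz⟩ := hg
  have h1 : w ^ 2 = (ι γ * z) ^ 2 := by
    rw [hw, hgz, mul_pow, ← map_pow, hγ]
  rcases sq_eq_sq_iff_eq_or_eq_neg.1 h1 with h2 | h2
  · rw [h2, map_mul, h.equi, hf]
    ring
  · rw [h2, map_neg, map_mul, h.equi, hf]
    ring

/-- **Springer's theorem** on extensions of odd degree -/
theorem springer_odd {k L : Type*} [Field k] [CharZero k] [Field L] [Algebra k L]
    [FiniteDimensional k L] (hodd : Odd (Module.finrank k L)) {n : ℕ}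
    (Q : Matrix (Fin n) (Fin n) k) (z : Fin n → L) (hz : z ≠ 0)
    (hQ : ∑ i, ∑ j, algebraMap k L (Q i j) * z i * z j = 0) :
    ∃ x : Fin n → k, x ≠ 0 ∧ ∑ i, ∑ j, Q i j * x i * x j = 0 := by
  obtain ⟨α, hα⟩ := Field.exists_primitive_element k L
  have hint : IsIntegral k α := IsIntegral.of_finite k α
  have hadj : Algebra.adjoin k {α} = ⊤ := by
    rw [← IntermediateField.adjoin_simple_toSubalgebra_of_isAlgebraic hint.isAlgebraic, hα]
    rfl
  have hdeg : Odd (minpoly k α).natDegree := by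
    rw [← IntermediateField.adjoin.finrank hint, hα, IntermediateField.finrank_top']
    exact hodd
  have hP : ∀ i, ∃ P : Polynomial k, Polynomial.aeval α P = z i := by
    intro i
    have h1 : z i ∈ Algebra.adjoin k {α} := by rw [hadj]; trivial
    rw [Algebra.adjoin_singleton_eq_range_aeval] at h1
    exact h1
  choose P hP using hP
  obtain ⟨l, hl⟩ : ∃ l, z l ≠ 0 := by
    by_contra hcon
    push Not at hcon
    exact hz (funext hcon)
  exact Pool.Agent.Helper273.Sup.springer Q α hint hdeg P ⟨l, by rwa [hP]⟩ (by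
    rw [← hQ]
    refine sum_congr rfl fun i _ => sum_congr rfl fun j _ => ?_
    rw [hP, hP])

end Pool.Agent.K3h82.QF
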