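import Pool.Agent.K3h82.QF.Chain
import Pool.Agent.K3h82.QF.Diag
import Pool.Agent.W620.SC.Obstruction

set_option autoImplicit false

namespace Pool.Agent.K3h82.QF

open Pool.Agent.W620.SC Finset IntermediateField

universe u v w

/-- extension by zero -/
def ext {n : ℕ} {R : Type*} [Zero R] (f : Fin n → R) (i : ℕ) : R := if h : i < n then f ⟨i, h⟩ else 0

lemma ext_val {n : ℕ} {R : Type*} [Zero R] (f : Fin n → R) (i : Fin n) : ext f i = f i := by
  unfold ext
  rw [dif_pos i.2]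

lemma sum_ext {n : ℕ} {R : Type*} [AddCommMonoid R] (f : Fin n → R) :
    ∑ i ∈ range n, ext f i = ∑ i, f i := by
  rw [Finset.sum_range]
  exact sum_congr rfl fun i _ => ext_val f i

section fin

variable {k A M : Type*} [Field k] [Field A] [Field M] [Algebra k A]
variable {s : (A ≃ₐ[k] A) →* RingAut M} {ι : A →+* M}
variable [CharZero k] [IsAlgClosed A] [Algebra.IsAlgebraic k A]

theorem fin_zero (hι : ∀ σ a, s σ (ι a) = ι (σ a)) {n : ℕ} (a : Fin n → k) (b : Fin n → M)
    (hb : ∀ i, b i = 0 ∨ Rep s ι (b i) (a i)) (hR : Roots s (ext b) n) (h0 : ∃ i, b i ≠ 0)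
    (hs : ∑ i, b i = 0) : ∃ u : Fin n → k, u ≠ 0 ∧ ∑ i, a i * u i ^ 2 = 0 := by
  obtain ⟨-, h2⟩ := chain hι (ext a) (ext b) (by
    intro i
    unfold ext
    split_ifs with h
    · exact hb _
    · exact Or.inl rfl) n hR n le_rfl
  obtain ⟨i, hi⟩ := h0
  obtain ⟨u, ⟨j, hj, huj⟩, hu⟩ := h2 ⟨i, i.2, by rwa [ext_val]⟩ (by rwa [sum_ext])
  refine ⟨fun i => u i, fun h => huj (congrFun h ⟨j, hj⟩), ?_⟩
  rw [Finset.sum_range] at hu
  rw [← hu]
  exact sum_congr rfl fun i _ => by rw [ext_val]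

theorem fin_val (hι : ∀ σ a, s σ (ι a) = ι (σ a)) {n : ℕ} (a : Fin n → k) (b : Fin n → M)
    (hb : ∀ i, b i = 0 ∨ Rep s ι (b i) (a i)) (hR : Roots s (ext b) n)
    (hs : ∑ i, b i ≠ 0) : ∃ u : Fin n → k, Rep s ι (∑ i, b i) (∑ i, a i * u i ^ 2) := by
  obtain ⟨h2, -⟩ := chain hι (ext a) (ext b) (by
    intro i
    unfold ext
    split_ifs with h
    · exact hb _
    · exact Or.inl rfl) n hR n le_rfl
  obtain ⟨u, hu⟩ := h2 (by rwa [sum_ext])
  refine ⟨fun i => u i, ?_⟩
  rw [sum_ext, Finset.sum_range] at hu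
  convert hu using 1
  exact sum_congr rfl fun i _ => by rw [ext_val]

end fin

section field

variable {k A F M : Type*} [Field k] [Field A] [Field F] [Field M] [Algebra k A] [Algebra k F]
  [Algebra F M]

/-- the action of `Gal(A/k)` on `M` through a section of `Gal(M/F)` -/
structure Act (s : (A ≃ₐ[k] A) →* RingAut M) (ι : A →+* M) : Prop where
  equi : ∀ σ a, s σ (ι a) = ι (σ a)
  smooth : ∀ w, Sm s w
  triv : ∀ σ (g : F), s σ (algebraMap F M g) = algebraMap F M g
  const : ∀ c : k, ι (algebraMap k A c) = algebraMap F M (algebraMap k F c)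

/-- `M` contains the square roots of the elements of `F` and of the `1 + v`, `v ^ 2 ∈ F` -/
def Closed2 (F M : Type*) [Field F] [Field M] [Algebra F M] : Prop :=
  (∀ g : F, ∃ w : M, w ^ 2 = algebraMap F M g) ∧
    ∀ (g : F) (v : M), v ^ 2 = algebraMap F M g → ∃ w : M, w ^ 2 = 1 + v

variable {s : (A ≃ₐ[k] A) →* RingAut M} {ι : A →+* M}

lemma Act.roots (h : Act (F := F) s ι) (hM : Closed2 F M) (β : ℕ → F) (n : ℕ) :
    Roots s (fun i => algebraMap F M (β i)) n := by
  refine ⟨fun j _ _ => ?_, fun j _ _ _ _ v hv => ?_⟩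
  · obtain ⟨w, hw⟩ := hM.1 (∑ i ∈ range j, β i)
    exact ⟨w, by rw [hw, map_sum], h.smooth w⟩
  · obtain ⟨w, hw⟩ := hM.2 (-β j / ∑ i ∈ range j, β i) v (by
      rw [hv, map_div₀, map_neg, map_sum])
    exact ⟨w, hw, h.smooth w⟩

lemma ext_map {n : ℕ} (β : Fin n → F) :
    ext (fun i => algebraMap F M (β i)) = fun i => algebraMap F M (ext β i) := by
  funext i
  unfold ext
  split_ifs
  · rfl
  · rw [map_zero]

lemma Act.roots' (h : Act (F := F) s ι) (hM : Closed2 F M) {n : ℕ} (β : Fin n → F) :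
    Roots s (ext fun i => algebraMap F M (β i)) n := by
  rw [ext_map]
  exact h.roots hM _ _

variable [CharZero k] [IsAlgClosed A] [Algebra.IsAlgebraic k A]

lemma Act.exists_rep (h : Act (F := F) s ι) (hM : Closed2 F M) {g : F} (hg : g ≠ 0) :
    ∃ c : k, Rep s ι (algebraMap F M g) c := by
  obtain ⟨w, hw⟩ := hM.1 g
  exact rep_exists h.equi ((map_ne_zero _).2 hg) (fun σ => h.triv σ g) hw (h.smooth w)

/-- the values of a weighted sum of squares -/
lemma Act.rep_term (h : Act (F := F) s ι) (c : k) (x : F) :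
    algebraMap F M (algebraMap k F c * x ^ 2) = 0 ∨
      Rep s ι (algebraMap F M (algebraMap k F c * x ^ 2)) c := by
  by_cases h0 : c = 0 ∨ x = 0
  · left
    rcases h0 with rfl | rfl <;> simp
  · push Not at h0
    right
    rw [map_mul, ← h.const, map_pow]
    exact (rep_const h0.1).sq_mul ((map_ne_zero _).2 h0.2) (fun σ => h.triv σ x)

/-- **quadrics** -/
theorem Act.quadric (h : Act (F := F) s ι) (hM : Closed2 F M) {n : ℕ}
    (Q : Matrix (Fin n) (Fin n) k) (z : Fin n → F) (hz : z ≠ 0)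
    (hQ : ∑ i, ∑ j, algebraMap k F (Q i j) * z i * z j = 0) :
    ∃ x : Fin n → k, x ≠ 0 ∧ ∑ i, ∑ j, Q i j * x i * x j = 0 := by
  obtain ⟨d, w, P, P', hPP, hPP', hall⟩ := diagonalize Q
  have hk := diag_eval hall k
  simp only [Algebra.algebraMap_self, RingHom.id_apply] at hk
  suffices hx : ∃ y : Fin d → k, y ≠ 0 ∧ ∑ l, w l * y l ^ 2 = 0 by
    obtain ⟨y, hy0, hy⟩ := hx
    have h1 : P.mulVec (P'.mulVec y) = y := by
      rw [Matrix.mulVec_mulVec, hPP', Matrix.one_mulVec]
    refine ⟨P'.mulVec y, ?_, ?_⟩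
    · intro h0
      rw [h0, Matrix.mulVec_zero] at h1
      exact hy0 h1.symm
    · rw [hk, ← hy]
      refine sum_congr rfl fun l _ => ?_
      have h2 : ∑ i, P l i * P'.mulVec y i = y l := congrFun h1 l
      rw [h2]
  have hF := diag_eval hall F z
  rw [hQ] at hF
  obtain ⟨y, hy⟩ : ∃ y : Fin d → F, y = fun l => ∑ i, algebraMap k F (P l i) * z i := ⟨_, rfl⟩
  have hy0 : y ≠ 0 := by
    intro h0
    apply hz
    have h1 : (P'.map (algebraMap k F)).mulVec ((P.map (algebraMap k F)).mulVec z) = z := by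
      rw [Matrix.mulVec_mulVec, ← Matrix.map_mul, hPP, Matrix.map_one _ (map_zero _) (map_one _),
        Matrix.one_mulVec]
    have h2 : (P.map (algebraMap k F)).mulVec z = y := by
      rw [hy]
      rfl
    rw [← h1, h2, h0, Matrix.mulVec_zero]
  have hsum : ∑ l, algebraMap k F (w l) * y l ^ 2 = 0 := by
    rw [hy]
    exact hF.symm
  obtain ⟨l, hl⟩ : ∃ l, y l ≠ 0 := by
    by_contra hcon
    push Not at hcon
    exact hy0 (funext hcon)
  by_cases hw : w l = 0
  · refine ⟨Pi.single l 1, ?_, ?_⟩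
    · intro h0
      have := congrFun h0 l
      simp at this
    · rw [sum_eq_single l]
      · rw [hw, zero_mul]
      · intro i _ hi
        rw [Pi.single_eq_of_ne hi]
        ring
      · intro hl
        exact absurd (mem_univ l) hl
  · refine fin_zero h.equi w (fun l => algebraMap F M (algebraMap k F (w l) * y l ^ 2))
      (fun l => h.rep_term _ _) (h.roots' hM _) ⟨l, ?_⟩ ?_
    · exact (map_ne_zero _).2 (mul_ne_zero ((map_ne_zero _).2 hw) (pow_ne_zero _ hl))
    · rw [← map_sum, hsum, map_zero]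

/-- the values of quadratic forms -/
theorem Act.value (h : Act (F := F) s ι) (hM : Closed2 F M) {n : ℕ}
    (Q : Matrix (Fin n) (Fin n) k) (z : Fin n → F)
    (hQ : ∑ i, ∑ j, algebraMap k F (Q i j) * z i * z j ≠ 0) :
    ∃ x : Fin n → k, Rep s ι (algebraMap F M (∑ i, ∑ j, algebraMap k F (Q i j) * z i * z j))
      (∑ i, ∑ j, Q i j * x i * x j) := by
  obtain ⟨d, w, P, P', hPP, hPP', hall⟩ := diagonalize Q
  have hk := diag_eval hall k
  simp only [Algebra.algebraMap_self, RingHom.id_apply] at hk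
  have hF := diag_eval hall F z
  rw [hF] at hQ ⊢
  obtain ⟨y, hy⟩ := fin_val h.equi w (fun l => algebraMap F M (algebraMap k F (w l) *
    (∑ i, algebraMap k F (P l i) * z i) ^ 2)) (fun l => h.rep_term _ _) (h.roots' hM _) (by
      rw [← map_sum]
      exact (map_ne_zero _).2 hQ)
  rw [← map_sum] at hy
  refine ⟨P'.mulVec y, ?_⟩
  have h1 : P.mulVec (P'.mulVec y) = y := by
    rw [Matrix.mulVec_mulVec, hPP', Matrix.one_mulVec]
  convert hy using 1
  rw [hk]
  refine sum_congr rfl fun l _ => ?_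
  have h2 : ∑ i, P l i * P'.mulVec y i = y l := congrFun h1 l
  rw [h2]

/-- **products of quadratic forms** -/
theorem Act.product (h : Act (F := F) s ι) (hM : Closed2 F M) {r : ℕ} (n : Fin r → ℕ)
    (Q : ∀ t, Matrix (Fin (n t)) (Fin (n t)) k) (c : k) (hc : c ≠ 0) (z : ∀ t, Fin (n t) → F)
    (y : F) (hy : y ≠ 0)
    (hQ : algebraMap k F c * y ^ 2 = ∏ t, ∑ i, ∑ j, algebraMap k F (Q t i j) * z t i * z t j) :
    ∃ (x : ∀ t, Fin (n t) → k) (y : k), y ≠ 0 ∧
      c * y ^ 2 = ∏ t, ∑ i, ∑ j, Q t i j * x t i * x t j := by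
  have h0 : ∏ t, ∑ i, ∑ j, algebraMap k F (Q t i j) * z t i * z t j ≠ 0 := by
    rw [← hQ]
    exact mul_ne_zero ((map_ne_zero _).2 hc) (pow_ne_zero _ hy)
  have h1 : ∀ t, ∃ x : Fin (n t) → k,
      Rep s ι (algebraMap F M (∑ i, ∑ j, algebraMap k F (Q t i j) * z t i * z t j))
        (∑ i, ∑ j, Q t i j * x i * x j) := fun t =>
    h.value hM (Q t) (z t) (fun h2 => h0 (prod_eq_zero (mem_univ t) h2))
  choose x hx using h1
  have h2 : ∀ T : Finset (Fin r), Rep s ι (∏ t ∈ T, algebraMap F M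
      (∑ i, ∑ j, algebraMap k F (Q t i j) * z t i * z t j))
      (∏ t ∈ T, ∑ i, ∑ j, Q t i j * x t i * x t j) := by
    classical
    intro T
    induction T using Finset.induction_on with
    | empty =>
      rw [prod_empty, prod_empty]
      have h3 := rep_const (s := s) (ι := ι) (c := (1 : k)) one_ne_zero
      rwa [map_one, map_one] at h3
    | insert t T ht ih =>
      rw [prod_insert ht, prod_insert ht]
      exact (hx t).mul ih
  have h3 := h2 univ
  rw [← map_prod, ← hQ] at h3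
  have h4 : Rep s ι (algebraMap F M (algebraMap k F c * y ^ 2)) c :=
    (h.rep_term c y).resolve_left ((map_ne_zero _).2 (mul_ne_zero ((map_ne_zero _).2 hc)
      (pow_ne_zero _ hy)))
  obtain ⟨r, hr0, hr⟩ := h4.unique h.equi h3
  exact ⟨x, r, hr0, hr.symm⟩

end field

section galois

variable {k : Type u} {F : Type v} {Ω : Type w} [Field k] [Field F] [Field Ω] [Algebra k F]
  [Algebra F Ω] [Algebra k Ω] [IsScalarTower k F Ω]

/-- the action given by a section -/
theorem exists_act' [IsAlgClosed Ω] [Algebra.IsAlgebraic F Ω] (N : IntermediateField F Ω)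
    (hN : ∀ x ∈ algebraicClosure k Ω, x ∈ N)
    (φ : (algebraicClosure k Ω ≃ₐ[k] algebraicClosure k Ω) →* (N ≃ₐ[F] N)) (hφ : Continuous φ)
    (hc : ∀ σ (x : algebraicClosure k Ω) (y : N), (y : Ω) = x → (φ σ y : Ω) = σ x) :
    ∃ (s : (algebraicClosure k Ω ≃ₐ[k] algebraicClosure k Ω) →* RingAut N)
      (ι : algebraicClosure k Ω →+* N), Act (F := F) s ι ∧ (∀ σ z, s σ z = φ σ z) ∧
        ∀ c, (ι c : Ω) = c := by
  refine ⟨(toRingAutHom F N).comp φ,
    (algebraMap (algebraicClosure k Ω) Ω).codRestrict N (fun x => hN _ x.2), ⟨?_, ?_, ?_, ?_⟩,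
    fun _ _ => rfl, fun _ => rfl⟩
  · intro σ x
    exact Subtype.ext (hc σ x _ rfl)
  · intro w
    have h1 : {e : N ≃ₐ[F] N | e w = w} ∈ nhds (1 : N ≃ₐ[F] N) := by
      rw [krullTopology_mem_nhds_one_iff]
      refine ⟨F⟮w⟯, ?_, ?_⟩
      · exact adjoin.finiteDimensional (Algebra.IsIntegral.isIntegral _)
      · intro e he
        exact (mem_fixingSubgroup_iff _ _).1 he _ (mem_adjoin_simple_self F _)
    have h2 := hφ.tendsto 1
    rw [map_one] at h2
    have h3 := h2 h1
    rw [Filter.mem_map, krullTopology_mem_nhds_one_iff] at h3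
    obtain ⟨E, hE, hE'⟩ := h3
    exact ⟨E, hE, fun σ hσ => hE' hσ⟩
  · intro σ g
    exact (φ σ).commutes g
  · intro c
    apply Subtype.ext
    exact IsScalarTower.algebraMap_apply k F Ω c

end galois

end Pool.Agent.K3h82.QF
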