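import Mathlib

/-!
# Quadratic forms `Q₀ ⊥ t Q₁` over `K(t)`
-/

set_option autoImplicit false

namespace Pool.Agent.K3h82.QF

open Finset Polynomial

section

variable {K : Type*} [Field K]

lemma qval_mul_X {n : ℕ} {R : Type*} [CommRing R] (Q : Fin n → Fin n → R) (x : Fin n → R) (t : R) :
    ∑ i, ∑ j, Q i j * (t * x i) * (t * x j) = t ^ 2 * ∑ i, ∑ j, Q i j * x i * x j := by
  rw [mul_sum]
  refine sum_congr rfl fun i _ => ?_
  rw [mul_sum]
  exact sum_congr rfl fun j _ => by ring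

/-- polynomials -/
lemma poly_zero {n m : ℕ} (Q₀ : Matrix (Fin n) (Fin n) K) (Q₁ : Matrix (Fin m) (Fin m) K)
    (h₀ : ∀ x : Fin n → K, ∑ i, ∑ j, Q₀ i j * x i * x j = 0 → x = 0)
    (h₁ : ∀ x : Fin m → K, ∑ i, ∑ j, Q₁ i j * x i * x j = 0 → x = 0) :
    ∀ (N : ℕ) (x : Fin n → K[X]) (y : Fin m → K[X]),
      (∑ i, (x i).natDegree) + (∑ i, (y i).natDegree) ≤ N →
      ∑ i, ∑ j, C (Q₀ i j) * x i * x j + X * ∑ i, ∑ j, C (Q₁ i j) * y i * y j = 0 →
      x = 0 ∧ y = 0 := by
  intro N
  induction N using Nat.strong_induction_on with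
  | _ N ih =>
  intro x y hN hxy
  -- the constant terms vanish
  have e0 := congrArg (eval 0) hxy
  simp only [eval_add, eval_mul, eval_X, zero_mul, add_zero, eval_finset_sum, eval_C,
    eval_zero] at e0
  have hx0 : ∀ i, eval 0 (x i) = 0 := fun i => congrFun (h₀ (fun i => eval 0 (x i)) e0) i
  have hdx : ∀ i, ∃ x', x i = X * x' := fun i => by
    have h1 := dvd_iff_isRoot.2 (hx0 i)
    rw [C_0, sub_zero] at h1
    exact h1
  choose x' hx' using hdx
  have hx2 : x = fun i => X * x' i := funext hx'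
  rw [hx2, qval_mul_X (fun i j => C (Q₀ i j)) x' X] at hxy
  have hxy2 : X * ∑ i, ∑ j, C (Q₀ i j) * x' i * x' j + ∑ i, ∑ j, C (Q₁ i j) * y i * y j = 0 := by
    have h1 : (X : K[X]) * (X * ∑ i, ∑ j, C (Q₀ i j) * x' i * x' j +
        ∑ i, ∑ j, C (Q₁ i j) * y i * y j) = 0 := by
      rw [← hxy]
      ring
    exact (mul_eq_zero.1 h1).resolve_left X_ne_zero
  have e1 := congrArg (eval 0) hxy2
  simp only [eval_add, eval_mul, eval_X, zero_mul, zero_add, eval_finset_sum, eval_C,
    eval_zero] at e1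
  have hy0 : ∀ i, eval 0 (y i) = 0 := fun i => congrFun (h₁ (fun i => eval 0 (y i)) e1) i
  have hdy : ∀ i, ∃ y', y i = X * y' := fun i => by
    have h1 := dvd_iff_isRoot.2 (hy0 i)
    rw [C_0, sub_zero] at h1
    exact h1
  choose y' hy' using hdy
  have hy2 : y = fun i => X * y' i := funext hy'
  rw [hy2, qval_mul_X (fun i j => C (Q₁ i j)) y' X] at hxy2
  have hxy3 : ∑ i, ∑ j, C (Q₀ i j) * x' i * x' j + X * ∑ i, ∑ j, C (Q₁ i j) * y' i * y' j = 0 := by
    have h1 : (X : K[X]) * (∑ i, ∑ j, C (Q₀ i j) * x' i * x' j +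
        X * ∑ i, ∑ j, C (Q₁ i j) * y' i * y' j) = 0 := by
      rw [← hxy2]
      ring
    exact (mul_eq_zero.1 h1).resolve_left X_ne_zero
  by_contra hcon
  -- the degrees decrease
  have hlex : ∀ i, (x' i).natDegree ≤ (x i).natDegree := fun i => by
    rw [hx' i]
    by_cases h : x' i = 0
    · simp [h]
    · rw [natDegree_X_mul h]
      omega
  have hley : ∀ i, (y' i).natDegree ≤ (y i).natDegree := fun i => by
    rw [hy' i]
    by_cases h : y' i = 0
    · simp [h]
    · rw [natDegree_X_mul h]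
      omega
  have hlt : (∑ i, (x' i).natDegree) + (∑ i, (y' i).natDegree) <
      (∑ i, (x i).natDegree) + (∑ i, (y i).natDegree) := by
    have h1 : (∃ i, x i ≠ 0) ∨ ∃ i, y i ≠ 0 := by
      by_contra h
      push Not at h
      exact hcon ⟨funext h.1, funext h.2⟩
    rcases h1 with ⟨i, hi⟩ | ⟨i, hi⟩
    · have h2 : x' i ≠ 0 := by
        intro h
        apply hi
        rw [hx' i, h, mul_zero]
      have h3 : (x' i).natDegree < (x i).natDegree := by
        rw [hx' i, natDegree_X_mul h2]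
        omega
      exact add_lt_add_of_lt_of_le (sum_lt_sum (fun i _ => hlex i) ⟨i, mem_univ i, h3⟩)
        (sum_le_sum fun i _ => hley i)
    · have h2 : y' i ≠ 0 := by
        intro h
        apply hi
        rw [hy' i, h, mul_zero]
      have h3 : (y' i).natDegree < (y i).natDegree := by
        rw [hy' i, natDegree_X_mul h2]
        omega
      exact add_lt_add_of_le_of_lt (sum_le_sum fun i _ => hlex i)
        (sum_lt_sum (fun i _ => hley i) ⟨i, mem_univ i, h3⟩)
  obtain ⟨h3, h4⟩ := ih _ (by omega) x' y' le_rfl hxy3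
  apply hcon
  refine ⟨funext fun i => ?_, funext fun i => ?_⟩
  · rw [hx' i, h3]
    simp
  · rw [hy' i, h4]
    simp

/-- the rational function field -/
theorem ratFunc_zero {n m : ℕ} (Q₀ : Matrix (Fin n) (Fin n) K) (Q₁ : Matrix (Fin m) (Fin m) K)
    (h₀ : ∀ x : Fin n → K, ∑ i, ∑ j, Q₀ i j * x i * x j = 0 → x = 0)
    (h₁ : ∀ x : Fin m → K, ∑ i, ∑ j, Q₁ i j * x i * x j = 0 → x = 0)
    (x : Fin n → RatFunc K) (y : Fin m → RatFunc K)
    (hxy : ∑ i, ∑ j, algebraMap K (RatFunc K) (Q₀ i j) * x i * x j +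
      RatFunc.X * ∑ i, ∑ j, algebraMap K (RatFunc K) (Q₁ i j) * y i * y j = 0) :
    x = 0 ∧ y = 0 := by
  classical
  obtain ⟨b, hb⟩ := IsLocalization.exist_integer_multiples_of_finset (nonZeroDivisors K[X])
    (univ.image x ∪ univ.image y)
  have hb0 : algebraMap K[X] (RatFunc K) (b : K[X]) ≠ 0 :=
    (map_ne_zero_iff _ (IsFractionRing.injective K[X] (RatFunc K))).2
      (nonZeroDivisors.ne_zero b.2)
  have hx : ∀ i, ∃ p : K[X], algebraMap K[X] (RatFunc K) p =
      algebraMap K[X] (RatFunc K) (b : K[X]) * x i := by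
    intro i
    obtain ⟨p, hp⟩ := hb (x i) (mem_union_left _ (mem_image_of_mem _ (mem_univ i)))
    exact ⟨p, by rw [hp, Algebra.smul_def]⟩
  have hy : ∀ i, ∃ p : K[X], algebraMap K[X] (RatFunc K) p =
      algebraMap K[X] (RatFunc K) (b : K[X]) * y i := by
    intro i
    obtain ⟨p, hp⟩ := hb (y i) (mem_union_right _ (mem_image_of_mem _ (mem_univ i)))
    exact ⟨p, by rw [hp, Algebra.smul_def]⟩
  choose p hp using hx
  choose q hq using hy
  have hC : ∀ c : K, algebraMap K[X] (RatFunc K) (C c) = algebraMap K (RatFunc K) c := by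
    intro c
    rw [IsScalarTower.algebraMap_apply K K[X] (RatFunc K)]
    rfl
  obtain ⟨h1, h2⟩ := poly_zero Q₀ Q₁ h₀ h₁ _ p q le_rfl (by
    apply IsFractionRing.injective K[X] (RatFunc K)
    have e1 := qval_mul_X (fun i j => algebraMap K (RatFunc K) (Q₀ i j)) x
      (algebraMap K[X] (RatFunc K) (b : K[X]))
    have e2 := qval_mul_X (fun i j => algebraMap K (RatFunc K) (Q₁ i j)) y
      (algebraMap K[X] (RatFunc K) (b : K[X]))
    simp only [map_add, map_mul, map_sum, hC, hp, hq, map_zero, RatFunc.algebraMap_X]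
    rw [e1, e2]
    linear_combination (algebraMap K[X] (RatFunc K) (b : K[X])) ^ 2 * hxy)
  refine ⟨funext fun i => ?_, funext fun i => ?_⟩
  · have h3 := hp i
    rw [h1] at h3
    simp only [Pi.zero_apply, map_zero] at h3
    exact (mul_eq_zero.1 h3.symm).resolve_left hb0
  · have h3 := hq i
    rw [h2] at h3
    simp only [Pi.zero_apply, map_zero] at h3
    exact (mul_eq_zero.1 h3.symm).resolve_left hb0

/-- the orthogonal sum `Q₀ ⊥ t Q₁` -/
def orth {k : Type*} [Field k] {n m : ℕ} (Q₀ : Matrix (Fin n) (Fin n) k)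
    (Q₁ : Matrix (Fin m) (Fin m) k) (t : k) : Matrix (Fin (n + m)) (Fin (n + m)) k :=
  fun i j => Fin.addCases (fun i => Fin.addCases (fun j => Q₀ i j) (fun _ => 0) j)
    (fun i => Fin.addCases (fun _ => 0) (fun j => t * Q₁ i j) j) i

lemma orth_val {k : Type*} [Field k] {n m : ℕ} (Q₀ : Matrix (Fin n) (Fin n) k)
    (Q₁ : Matrix (Fin m) (Fin m) k) (t : k) (R : Type*) [CommRing R] [Algebra k R]
    (z : Fin (n + m) → R) :
    ∑ i, ∑ j, algebraMap k R (orth Q₀ Q₁ t i j) * z i * z j =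
      ∑ i, ∑ j, algebraMap k R (Q₀ i j) * z (Fin.castAdd m i) * z (Fin.castAdd m j) +
      algebraMap k R t * ∑ i, ∑ j, algebraMap k R (Q₁ i j) * z (Fin.natAdd n i) *
        z (Fin.natAdd n j) := by
  rw [Fin.sum_univ_add]
  congr 1
  · refine sum_congr rfl fun i _ => ?_
    rw [Fin.sum_univ_add]
    simp only [orth, Fin.addCases_left, Fin.addCases_right, map_zero, zero_mul, sum_const_zero,
      add_zero]
  · rw [mul_sum]
    refine sum_congr rfl fun i _ => ?_
    rw [Fin.sum_univ_add, mul_sum]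
    simp only [orth, Fin.addCases_left, Fin.addCases_right, map_zero, zero_mul, sum_const_zero,
      zero_add, map_mul]
    exact sum_congr rfl fun j _ => by ring

end

end Pool.Agent.K3h82.QF
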